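import Mathlib
import Pool.Agent.Q167.SL.All
import Pool.Agent.Q225.SL.Num
import Pool.Agent.Q154.SL.Upc
import Pool.Agent.TH41.SC.Fin

/-!
# MP_b5f63d_co: the exact exponential rate of the linear programming bound

`LP(n, s)`, the best linear programming bound (Delsarte, Goethals, Seidel; Kabatiansky, Levenshtein)
for spherical codes in `S^(n-1)` with inner products at most `s`, satisfies
`log LP(n, s) / n → Φ(η)`, where `η > 0` is the unique solution of `E(η) / O(η) = s`.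
Here `O(η)`, `E(η)` are the sums of `m / sinh(m η)` over the odd and over the even `m ≥ 1` and
`Φ(η) = g₀(coth η) - g₀(coth 2η) + g₀(coth 3η) - …`. For kissing configurations (`s = 1/2`) the
linear programming bound is `2^((κ + o(1)) n)` with `0.3966 < κ < 0.396601`.
-/


open MeasureTheory Filter

namespace Pool.Agent.Results.MP_b5f63d_co.ExactProgrammingRate

/-- The auxiliary functions of the linear programming bound for spherical codes in `S^(n-1)` with
inner products at most `s` (Gegenbauer expansions with nonnegative coefficients, by Schoenberg's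
theorem). -/
structure IsAuxiliary (n : ℕ) (s : ℝ) (g : ℝ → ℝ) : Prop where
  continuousOn : ContinuousOn g (Set.Icc (-1) 1)
  posdef : ∀ (m : ℕ) (x : Fin m → EuclideanSpace ℝ (Fin n)) (a : Fin m → ℝ), (∀ i, ‖x i‖ = 1) →
    0 ≤ ∑ i, ∑ j, a i * a j * g (inner ℝ (x i) (x j))
  nonpos : ∀ t : ℝ, -1 ≤ t → t ≤ s → g t ≤ 0

/-- The unit ball of `ℝ^n`. -/
abbrev ball (n : ℕ) : Set (EuclideanSpace ℝ (Fin n)) := Metric.ball 0 1

/-- The mean of `g(⟨x, y⟩)` over the sphere: the mean of `g` of the cosine of the angle between two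
independent random points of the unit ball. -/
noncomputable def mean (n : ℕ) (g : ℝ → ℝ) : ℝ :=
  (∫ u in ball n, ∫ w in ball n, g (inner ℝ u w / (‖u‖ * ‖w‖))) / (volume (ball n)).toReal ^ 2

/-- The linear programming bound for spherical codes in `S^(n-1)` with inner products at most `s`:
the infimum of the bounds given by the auxiliary functions with positive mean. -/
noncomputable def LP (n : ℕ) (s : ℝ) : ℝ :=
  sInf {v : ℝ | ∃ g : ℝ → ℝ, IsAuxiliary n s g ∧ 0 < mean n g ∧ v = g 1 / mean n g}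

/-- `∑ m / sinh (m η)` over the odd numbers `m ≥ 1` -/
noncomputable def oddSum (η : ℝ) : ℝ := ∑' m : ℕ, (2 * (m : ℝ) + 1) / Real.sinh ((2 * m + 1) * η)

/-- `∑ m / sinh (m η)` over the even numbers `m ≥ 2` -/
noncomputable def evenSum (η : ℝ) : ℝ := ∑' m : ℕ, (2 * (m : ℝ) + 2) / Real.sinh ((2 * m + 2) * η)

/-- The Kabatiansky-Levenshtein function
`g₀(ν) = ((ν + 1) / 2) log ((ν + 1) / 2) - ((ν - 1) / 2) log ((ν - 1) / 2)`. -/
noncomputable def g₀ (ν : ℝ) : ℝ :=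
  (ν + 1) / 2 * Real.log ((ν + 1) / 2) - (ν - 1) / 2 * Real.log ((ν - 1) / 2)

/-- `g₀ (coth η) - g₀ (coth (2 η)) + g₀ (coth (3 η)) - …` -/
noncomputable def Φ (η : ℝ) : ℝ :=
  ∑' m : ℕ, (-1) ^ m * g₀ (Real.cosh ((m + 1) * η) / Real.sinh ((m + 1) * η))

open Pool.Agent.Q167.SL

/-- `g(1) ≥ 0` for an auxiliary function, if the sphere is not empty. -/
lemma one_nonneg {n : ℕ} {s : ℝ} {g : ℝ → ℝ} (hn : 0 < n) (hg : IsAuxiliary n s g) : 0 ≤ g 1 := by
  have h := hg.posdef 1 (fun _ => EuclideanSpace.single ⟨0, hn⟩ (1 : ℝ)) (fun _ => 1) (by simp)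
  simpa using h

lemma aux_iff (n : ℕ) (s : ℝ) (g : ℝ → ℝ) : IsAuxiliary n s g ↔ AuxF n s g :=
  ⟨fun h => ⟨h.1, h.2, h.3⟩, fun h => ⟨h.1, h.2.1, h.2.2⟩⟩

lemma mean_eq (n : ℕ) (g : ℝ → ℝ) : mean n g = mF n g := rfl

/-- bounds of the linear programming bound near `s` -/
lemma bounds (hlow : S_low) (hupc : S_upc) (hk7 : S_k7) (h1 : S_k1) {s η : ℝ} (hη : 0 < η)
    (hs : s * oddSum η = evenSum η) {ε : ℝ} (hε : 0 < ε) :
    ∃ δ : ℝ, 0 < δ ∧ ∀ᶠ n : ℕ in atTop, ∀ t : ℝ, |t - s| ≤ δ →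
      Real.exp (n * (Φ η - ε)) ≤ LP n t ∧ LP n t ≤ Real.exp (n * (Φ η + ε)) := by
  obtain ⟨δ, hδ, h⟩ := main hlow hupc hk7 h1 hη (s := s) hs hε
  refine ⟨δ, hδ, ?_⟩
  filter_upwards [h, eventually_gt_atTop 0] with n hn hn0 t ht
  rw [abs_le] at ht
  obtain ⟨h2, h3⟩ := hn
  obtain ⟨g, hg, hm, hb⟩ := h3 t (by linarith)
  have hgA := (aux_iff n t g).2 hg
  constructor
  · refine le_csInf ⟨_, g, hgA, hm, rfl⟩ ?_
    rintro v ⟨g', hg', hm', rfl⟩
    exact h2 t (by linarith) g' ((aux_iff n t g').1 hg') hm'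
  · have hbd : BddBelow {v : ℝ | ∃ g : ℝ → ℝ, IsAuxiliary n t g ∧ 0 < mean n g ∧
        v = g 1 / mean n g} := by
      refine ⟨0, ?_⟩
      rintro v ⟨g', hg', hm', rfl⟩
      exact div_nonneg (one_nonneg hn0 hg') hm'.le
    exact (csInf_le hbd ⟨g, hgA, hm, rfl⟩).trans hb

lemma limit (hlow : S_low) (hupc : S_upc) (hk7 : S_k7) (h1 : S_k1) {s η : ℝ} (hη : 0 < η)
    (hs : s * oddSum η = evenSum η) {t : ℕ → ℝ} (ht : Tendsto t atTop (nhds s)) :
    Tendsto (fun n : ℕ => Real.log (LP n (t n)) / n) atTop (nhds (Φ η)) := by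
  rw [Metric.tendsto_atTop]
  intro ε hε
  obtain ⟨δ, hδ, h⟩ := bounds hlow hupc hk7 h1 hη hs (half_pos hε)
  have h2 : ∀ᶠ n in atTop, |t n - s| ≤ δ := by
    have := (Metric.tendsto_atTop.1 ht) δ hδ
    obtain ⟨N, hN⟩ := this
    filter_upwards [eventually_ge_atTop N] with n hn
    exact (hN n hn).le
  obtain ⟨N, hN⟩ := eventually_atTop.1 ((h.and h2).and (eventually_gt_atTop 0))
  refine ⟨N, fun n hn => ?_⟩
  obtain ⟨⟨h3, h4⟩, hn0⟩ := hN n hn
  obtain ⟨h5, h6⟩ := h3 (t n) h4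
  have hnr : (0 : ℝ) < n := by exact_mod_cast hn0
  have hpos : 0 < LP n (t n) := (Real.exp_pos _).trans_le h5
  have h7 := (Real.le_log_iff_exp_le hpos).2 h5
  have h8 := (Real.log_le_iff_le_exp hpos).2 h6
  rw [Real.dist_eq, abs_lt]
  constructor
  · rw [lt_sub_iff_add_lt, lt_div_iff₀ hnr]
    nlinarith
  · rw [sub_lt_iff_lt_add, div_lt_iff₀ hnr]
    nlinarith

lemma hex (s : ℝ) (h0 : 0 < s) (h1 : s < 1) : ∃ η : ℝ, 0 < η ∧ s * oddSum η = evenSum η :=
  Pool.Agent.TH41.SC.exists_η h0 h1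

lemma eta_pos : (0 : ℝ) < -Real.log (6515 / 22611) := by
  rw [neg_pos]
  exact Real.log_neg (by norm_num) (by norm_num)

lemma hup : Φ (-Real.log (6515 / 22611)) < 396601 / 1000000 * Real.log 2 := by
  have h := Pool.Agent.TH41.SC.Ψ_eq eta_pos
  rw [neg_neg, Real.exp_log (by norm_num)] at h
  have h2 : Φ (-Real.log (6515 / 22611)) = Pool.Agent.TH41.SC.Ψ (-Real.log (6515 / 22611)) := rfl
  rw [h2, h]
  exact Pool.Agent.TH41.SC.num_Φ

lemma hup2 :
    (1 / 2 : ℝ) * oddSum (-Real.log (6515 / 22611)) ≤ evenSum (-Real.log (6515 / 22611)) := by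
  refine (Pool.Agent.TH41.SC.hyp_iff eta_pos (1 / 2)).2 ?_
  rw [neg_neg, Real.exp_log (by norm_num)]
  exact Pool.Agent.TH41.SC.num_hyp

/-- **The exact exponential rate of the linear programming bound for spherical codes.** -/
theorem result :
    (∀ s : ℝ, 0 < s → s < 1 → ∃! η : ℝ, 0 < η ∧ s * oddSum η = evenSum η) ∧
    (∀ s η : ℝ, 0 < η → s * oddSum η = evenSum η → ∀ t : ℕ → ℝ, Tendsto t atTop (nhds s) →
      Tendsto (fun n : ℕ => Real.log (LP n (t n)) / n) atTop (nhds (Φ η))) ∧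
    (StrictAntiOn (fun η => evenSum η / oddSum η) (Set.Ioi 0) ∧ StrictAntiOn Φ (Set.Ioi 0) ∧
      ContinuousOn Φ (Set.Ioi 0)) ∧
    ∃ κ : ℝ, 3966 / 10000 < κ ∧ κ < 396601 / 1000000 ∧
      Tendsto (fun n : ℕ => Real.logb 2 (LP n (1 / 2)) / n) atTop (nhds κ) := by
  have hO : ∀ η : ℝ, 0 < η → 0 < oddSum η := fun η hη => (k1' η hη).2.2.2.2.2.2.2.2.2.1
  have hanti : StrictAntiOn (fun η => evenSum η / oddSum η) (Set.Ioi 0) :=
    fun x hx y _ hxy => s0_anti low' Pool.Agent.Q154.SL.upc k7' k1' hx hxy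
  have hkey : ∀ s η : ℝ, 0 < η → s * oddSum η = evenSum η → evenSum η / oddSum η = s := by
    intro s η hη h
    rw [← h, mul_div_assoc, div_self (hO η hη).ne', mul_one]
  refine ⟨fun s h0 h1' => ?_, fun s η hη h t ht => limit low' Pool.Agent.Q154.SL.upc k7' k1' hη h ht,
    ⟨hanti, k7'.2, k7'.1⟩, ?_⟩
  · obtain ⟨η, hη, h⟩ := hex s h0 h1'
    refine ⟨η, ⟨hη, h⟩, ?_⟩
    rintro η' ⟨hη', h'⟩
    have h3 : evenSum η' / oddSum η' = evenSum η / oddSum η := by
      rw [hkey s η hη h, hkey s η' hη' h']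
    exact hanti.injOn (Set.mem_Ioi.2 hη') (Set.mem_Ioi.2 hη) h3
  · obtain ⟨η, hη, h⟩ := hex (1 / 2) (by norm_num) (by norm_num)
    have hl2 : 0 < Real.log 2 := Real.log_pos (by norm_num)
    have hs0 := hkey _ η hη h
    refine ⟨Φ η / Real.log 2, ?_, ?_, ?_⟩
    · rw [lt_div_iff₀ hl2]
      refine Pool.Agent.Q225.SL.num.2.trans ?_
      have hη1 : (0 : ℝ) < Real.log (9211 / 2654) := Real.log_pos (by norm_num)
      refine k7'.2 (Set.mem_Ioi.2 hη) (Set.mem_Ioi.2 hη1) ?_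
      by_contra hcon
      rw [not_lt] at hcon
      have h3 : evenSum η / oddSum η ≤ evenSum (Real.log (9211 / 2654)) /
          oddSum (Real.log (9211 / 2654)) :=
        hanti.antitoneOn (Set.mem_Ioi.2 hη1) (Set.mem_Ioi.2 hη) hcon
      rw [hs0] at h3
      exact absurd (h3.trans_lt Pool.Agent.Q225.SL.num.1) (lt_irrefl _)
    · rw [div_lt_iff₀ hl2]
      refine lt_of_le_of_lt ?_ hup
      have hη1 : (0 : ℝ) < -Real.log (6515 / 22611) := by
        rw [neg_pos]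
        exact Real.log_neg (by norm_num) (by norm_num)
      refine k7'.2.antitoneOn (Set.mem_Ioi.2 hη1) (Set.mem_Ioi.2 hη) ?_
      by_contra hcon
      rw [not_le] at hcon
      have h3 : evenSum (-Real.log (6515 / 22611)) / oddSum (-Real.log (6515 / 22611)) <
          evenSum η / oddSum η := hanti (Set.mem_Ioi.2 hη) (Set.mem_Ioi.2 hη1) hcon
      rw [hs0, div_lt_iff₀ (hO _ hη1)] at h3
      exact absurd hup2 (not_le.2 h3)
    · have h3 := (limit low' Pool.Agent.Q154.SL.upc k7' k1' hη h (t := fun _ => 1 / 2)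
        tendsto_const_nhds).div_const (Real.log 2)
      refine h3.congr fun n => ?_
      rw [Real.logb]
      ring

end Pool.Agent.Results.MP_b5f63d_co.ExactProgrammingRate
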