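import Pool.Agent.Q197.VC.SphFinal

/-! Kissing configurations and spherical codes with few Voronoi neighbours. -/

set_option autoImplicit false

open Pool.Agent.Q197.VC

namespace Pool.Agent.Results.MP_b5f63d_co.FewNeighbours

/-- Let `X` be a finite set of unit vectors of `ℝ^n` with mutual inner products at most `κ`
(a kissing configuration for `κ = 1/2`), the Voronoi cone of `x` being cut out by at most `f x`
members of `X`, with average of `f` at most `F`. (1) `X` has at most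
`7 n (1 + (1+κ)/(1-κ) (1 - (4nF)^(-2/n)))^(n/2)` points, for `κ = 1/2` at most
`7 n (4 - 3 (4nF)^(-2/n))^(n/2)`. (2) If `X` has at least `7 n (1+σ)^(n/2)` points, then
`F ≥ (1 - σ (1-κ)/(1+κ))^(-n/2) / (4n)`. (3) If `κ = 1/2` and `X` is maximal under inclusion
(for instance of maximal size), then `F ≥ (9/8)^(n/2) / (4 n √(7n))`. -/
theorem result : ∀ n : ℕ, 0 < n → ∀ (X : Finset (EuclideanSpace ℝ (Fin n))) (κ : ℝ), -1 < κ →
    κ < 1 → (∀ x ∈ X, ‖x‖ = 1) → (∀ x ∈ X, ∀ y ∈ X, x ≠ y → inner ℝ x y ≤ κ) →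
    ∀ f : EuclideanSpace ℝ (Fin n) → ℕ, (∀ x ∈ X, FewNeighbours X x (f x)) →
    ∀ F : ℝ, 1 ≤ F → ∑ x ∈ X, (f x : ℝ) ≤ F * X.card →
    (X.card : ℝ) ≤ 7 * n * (1 + (1 + κ) / (1 - κ) * (1 - (4 * n * F) ^ (-(2 / n : ℝ)))) ^
      ((n : ℝ) / 2) ∧
    (κ = 1 / 2 → (X.card : ℝ) ≤ 7 * n * (4 - 3 * (4 * n * F) ^ (-(2 / n : ℝ))) ^
      ((n : ℝ) / 2)) ∧
    (∀ σ : ℝ, 7 * n * (1 + σ) ^ ((n : ℝ) / 2) ≤ X.card →
      (1 - σ * ((1 - κ) / (1 + κ))) ^ (-((n : ℝ) / 2)) / (4 * n) ≤ F) ∧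
    (κ = 1 / 2 → (∀ z : EuclideanSpace ℝ (Fin n), ‖z‖ = 1 → z ∉ X →
        ∃ x ∈ X, (1 / 2 : ℝ) < inner ℝ z x) →
      (9 / 8 : ℝ) ^ ((n : ℝ) / 2) / (4 * n * √(7 * n)) ≤ F) := by
  intro n hn X κ hκ hκ1 hX1 hX f hf F hF1 hF
  have h1 := spherical hn hκ1 hκ hX1 hX hf hF1 hF
  refine ⟨h1, ?_, fun σ hσ => neighbours hn hκ1 hκ hX1 hX hf hF1 hF hσ, ?_⟩
  · intro h
    subst h
    refine h1.trans (le_of_eq ?_)
    congr 2
    ring
  · intro h hmax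
    subst h
    refine saturated_neighbours hn hX1 hX hf hF1 hF fun z hz => ?_
    by_cases hzX : z ∈ X
    · refine ⟨z, hzX, ?_⟩
      rw [real_inner_self_eq_norm_sq, hz]
      norm_num
    · obtain ⟨x, hx, hzx⟩ := hmax z hz hzX
      exact ⟨x, hx, hzx.le⟩

end Pool.Agent.Results.MP_b5f63d_co.FewNeighbours
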