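import Mathlib
import Pool.Agent.Q167.KS.Main
import Pool.Agent.Q225.SL.Num
import Pool.Agent.TH41.SC.Fin
import Pool.Agent.Y570.SP.Exact

/-!
# MP_b5f63d_co: the exact exponential rate of the `k`-point bounds

A pseudo-code of level `k` on a finite set `X` of unit vectors of `ℝ^n` is a real function `y` on
the subsets of `X` which behaves like `y(S) = Prob(S ⊆ C)` for a random spherical code `C ⊆ X` with
inner products `≤ s`, as far as this can be seen on `k` points.  The `k`-point bound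
`kPoint(n, k, s)` is the supremum of the pseudo-expectation of `|C|`; for `k = 2` it is the linear
programming bound of Delsarte, Goethals and Seidel (up to the discretization), for `k = 3` it is at
least as strong as the bound of Bachoc and Vallentin.

For every angle below 90 degrees the exponential rate of the `k`-point bound is exactly that of the
linear programming bound, uniformly in `2 ≤ k ≤ exp(c n)`.
-/

open MeasureTheory Filter Topology

namespace Pool.Agent.Results.MP_b5f63d_co.KPointRate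

/-- The pseudo-probability of `D ∪ S ⊆ C, F ∩ C = ∅`:
`∑_{G ⊆ F} (-1)^|G| y(D ∪ G ∪ S)`. -/
def pseudoProb {V : Type} [DecidableEq V] (y : Finset V → ℝ) (D F S : Finset V) : ℝ :=
  ∑ G ∈ F.powerset, (-1) ^ G.card * y (D ∪ G ∪ S)

open Classical in
/-- Pseudo-codes of level `k` with inner products at most `s` on the finite set `X`. The rows and
columns of the matrices are indexed by `∅` (that is, `none`) and the sets `{x}` (that is,
`some x`). -/
structure IsPseudoCode (n k : ℕ) (s : ℝ) (X : Finset (EuclideanSpace ℝ (Fin n)))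
    (y : Finset X → ℝ) : Prop where
  one : y ∅ = 1
  sep : ∀ S : Finset X, ∀ u ∈ S, ∀ v ∈ S, u ≠ v →
    s < inner ℝ (u : EuclideanSpace ℝ (Fin n)) v → y S = 0
  nonneg : ∀ D F : Finset X, D.card + F.card ≤ k → 0 ≤ pseudoProb y D F ∅
  psd : ∀ D F : Finset X, D.card + F.card + 2 ≤ k → ∀ a : Option X → ℝ,
    0 ≤ ∑ s, ∑ t, a s * a t * pseudoProb y D F (s.toFinset ∪ t.toFinset)

/-- `B` is an upper bound for `∑_x y({x})` for all pseudo-codes `y` of level `k` on finite sets of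
unit vectors. -/
def IsBound (n k : ℕ) (s B : ℝ) : Prop :=
  ∀ X : Finset (EuclideanSpace ℝ (Fin n)), (∀ x ∈ X, ‖x‖ = 1) →
    ∀ y : Finset X → ℝ, IsPseudoCode n k s X y → ∑ x, y {x} ≤ B

/-- The `k`-point bound for spherical codes in `S^(n-1)` with inner products at most `s`: the best
upper bound of this kind. -/
noncomputable def kPoint (n k : ℕ) (s : ℝ) : ℝ := sInf {B : ℝ | IsBound n k s B}

/-- `∑ m / sinh (m η)` over the odd numbers `m ≥ 1` -/
noncomputable def oddSum (η : ℝ) : ℝ := ∑' m : ℕ, (2 * (m : ℝ) + 1) / Real.sinh ((2 * m + 1) * η)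

/-- `∑ m / sinh (m η)` over the even numbers `m ≥ 2` -/
noncomputable def evenSum (η : ℝ) : ℝ := ∑' m : ℕ, (2 * (m : ℝ) + 2) / Real.sinh ((2 * m + 2) * η)

/-- The Kabatiansky-Levenshtein function
`g₀(ν) = ((ν + 1) / 2) log ((ν + 1) / 2) - ((ν - 1) / 2) log ((ν - 1) / 2)`. -/
noncomputable def g₀ (ν : ℝ) : ℝ :=
  (ν + 1) / 2 * Real.log ((ν + 1) / 2) - (ν - 1) / 2 * Real.log ((ν - 1) / 2)

/-- `g₀ (coth η) - g₀ (coth (2 η)) + g₀ (coth (3 η)) - …` -/
noncomputable def Φ (η : ℝ) : ℝ :=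
  ∑' m : ℕ, (-1) ^ m * g₀ (Real.cosh ((m + 1) * η) / Real.sinh ((m + 1) * η))

open Pool.Agent.Y570 Pool.Agent.Q167.SL Pool.Agent.Q167.KS

lemma code_iff (n k : ℕ) (s : ℝ) (X : Finset (EuclideanSpace ℝ (Fin n))) (y : Finset X → ℝ) :
    IsPseudoCode n k s X y ↔ SP.SCode n k s X y :=
  ⟨fun h => ⟨h.one, h.sep, h.nonneg, h.psd⟩, fun h => ⟨h.one, h.sep, h.nonneg, h.psd⟩⟩

lemma bound_iff (n k : ℕ) (s B : ℝ) : IsBound n k s B ↔ SP.SBound n k s B := by
  unfold IsBound SP.SBound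
  simp only [code_iff]

lemma kPoint_eq (n k : ℕ) (s : ℝ) : kPoint n k s = SP.KS n k s := by
  unfold kPoint SP.KS
  simp only [bound_iff]

/-- the rate, in logarithmic form -/
lemma rate {s η : ℝ} (hη : 0 < η) (hs : s * oddSum η = evenSum η) {ε : ℝ} (hε : 0 < ε) :
    ∃ δ c : ℝ, 0 < δ ∧ 0 < c ∧ ∀ᶠ n : ℕ in atTop, ∀ t : ℝ, |t - s| ≤ δ → ∀ k : ℕ, 2 ≤ k →
      (k : ℝ) ≤ Real.exp (c * n) → |Real.log (kPoint n k t) / n - Φ η| ≤ ε := by
  obtain ⟨δ, c, hδ, hc, h⟩ := kmain (s := s) hη hs hε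
  refine ⟨δ, c, hδ, hc, ?_⟩
  filter_upwards [h, eventually_gt_atTop 0] with n hn hn0 t ht k hk hkc
  obtain ⟨h1, h2⟩ := hn t ht k hk hkc
  rw [← kPoint_eq] at h1 h2
  have hnr : (0 : ℝ) < n := by exact_mod_cast hn0
  have hpos : 0 < kPoint n k t := (Real.exp_pos _).trans_le h1
  have h7 := (Real.le_log_iff_exp_le hpos).2 h1
  have h8 := (Real.log_le_iff_le_exp hpos).2 h2
  have e : Φ η = Ph η := rfl
  rw [e, abs_le]
  constructor
  · rw [le_sub_iff_add_le, le_div_iff₀ hnr]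
    nlinarith
  · rw [sub_le_iff_le_add, div_le_iff₀ hnr]
    nlinarith

/-- the limit along sequences -/
lemma limit {s η : ℝ} (hη : 0 < η) (hs : s * oddSum η = evenSum η) {t : ℕ → ℝ} {k : ℕ → ℕ}
    (ht : Tendsto t atTop (𝓝 s)) (hk : ∀ n, 2 ≤ k n)
    (hk0 : Tendsto (fun n : ℕ => Real.log (k n) / n) atTop (𝓝 0)) :
    Tendsto (fun n : ℕ => Real.log (kPoint n (k n) (t n)) / n) atTop (𝓝 (Φ η)) := by
  rw [Metric.tendsto_atTop]
  intro ε hε
  obtain ⟨δ, c, hδ, hc, h⟩ := rate hη hs (half_pos hε)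
  have h2 : ∀ᶠ n in atTop, |t n - s| ≤ δ := by
    obtain ⟨N, hN⟩ := (Metric.tendsto_atTop.1 ht) δ hδ
    filter_upwards [eventually_ge_atTop N] with n hn
    exact (hN n hn).le
  have h3 : ∀ᶠ n : ℕ in atTop, (k n : ℝ) ≤ Real.exp (c * n) := by
    filter_upwards [hk0.eventually (gt_mem_nhds hc), eventually_gt_atTop 0] with n hn hn0
    have hnr : (0 : ℝ) < n := by exact_mod_cast hn0
    rw [div_lt_iff₀ hnr] at hn
    have hkp : (0 : ℝ) < k n := by
      have := hk n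
      exact_mod_cast (by omega : 0 < k n)
    exact ((Real.log_le_iff_le_exp hkp).1 hn.le)
  obtain ⟨N, hN⟩ := eventually_atTop.1 ((h.and h2).and h3)
  refine ⟨N, fun n hn => ?_⟩
  obtain ⟨⟨h4, h5⟩, h6⟩ := hN n hn
  have h7 := h4 (t n) h5 (k n) (hk n) h6
  rw [Real.dist_eq]
  linarith

/-- **The exact exponential rate of the `k`-point bounds for spherical codes.** -/
theorem result :
    (∀ (n k : ℕ) (s : ℝ), 2 ≤ k → s < 1 →
      (∀ C : Finset (EuclideanSpace ℝ (Fin n)), (∀ x ∈ C, ‖x‖ = 1) →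
        (∀ x ∈ C, ∀ z ∈ C, x ≠ z → inner ℝ x z ≤ s) → (C.card : ℝ) ≤ kPoint n k s) ∧
      kPoint n (k + 1) s ≤ kPoint n k s ∧
      ∀ M : ℕ, (∀ C : Finset (EuclideanSpace ℝ (Fin n)), (∀ x ∈ C, ‖x‖ = 1) →
        (∀ x ∈ C, ∀ z ∈ C, x ≠ z → inner ℝ x z ≤ s) → C.card ≤ M) →
        M + 1 ≤ k → kPoint n k s ≤ M) ∧
    (∀ s : ℝ, 0 < s → s < 1 → ∃! η : ℝ, 0 < η ∧ s * oddSum η = evenSum η) ∧
    (∀ s η : ℝ, 0 < η → s * oddSum η = evenSum η → ∀ ε : ℝ, 0 < ε → ∃ δ c : ℝ, 0 < δ ∧ 0 < c ∧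
      ∀ᶠ n : ℕ in atTop, ∀ t : ℝ, |t - s| ≤ δ → ∀ k : ℕ, 2 ≤ k → (k : ℝ) ≤ Real.exp (c * n) →
        |Real.log (kPoint n k t) / n - Φ η| ≤ ε) ∧
    (∀ s η : ℝ, 0 < η → s * oddSum η = evenSum η → ∀ (t : ℕ → ℝ) (k : ℕ → ℕ),
      Tendsto t atTop (𝓝 s) → (∀ n, 2 ≤ k n) →
      Tendsto (fun n : ℕ => Real.log (k n) / n) atTop (𝓝 0) →
      Tendsto (fun n : ℕ => Real.log (kPoint n (k n) (t n)) / n) atTop (𝓝 (Φ η))) ∧
    ∃ κ : ℝ, 3966 / 10000 < κ ∧ κ < 396601 / 1000000 ∧ ∀ k : ℕ → ℕ, (∀ n, 2 ≤ k n) →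
      Tendsto (fun n : ℕ => Real.log (k n) / n) atTop (𝓝 0) →
      Tendsto (fun n : ℕ => Real.logb 2 (kPoint n (k n) (1 / 2)) / n) atTop (𝓝 κ) := by
  have hO : ∀ η : ℝ, 0 < η → 0 < oddSum η := fun η hη => (k1' η hη).2.2.2.2.2.2.2.2.2.1
  have hanti : StrictAntiOn (fun η => evenSum η / oddSum η) (Set.Ioi 0) :=
    fun x hx y _ hxy => s0_anti low' Pool.Agent.Q154.SL.upc k7' k1' hx hxy
  have hkey : ∀ s η : ℝ, 0 < η → s * oddSum η = evenSum η → evenSum η / oddSum η = s := by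
    intro s η hη h
    rw [← h, mul_div_assoc, div_self (hO η hη).ne', mul_one]
  have hex : ∀ s : ℝ, 0 < s → s < 1 → ∃ η : ℝ, 0 < η ∧ s * oddSum η = evenSum η :=
    fun s h0 h1 => Pool.Agent.TH41.SC.exists_η h0 h1
  refine ⟨fun n k s hk hs => ⟨fun C h1 h2 => ?_, ?_, fun M h1 h2 => ?_⟩, fun s h0 h1' => ?_,
    fun s η hη h ε hε => rate hη h hε, fun s η hη h t k ht hk hk0 => limit hη h ht hk hk0, ?_⟩
  · rw [kPoint_eq]
    exact SP.le_KS hk hs fun B hB => SP.sbound_card hB h1 h2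
  · simp_rw [kPoint_eq]
    exact SP.le_KS hk hs fun B hB => SP.KS_le (SP.sbound_mono hB)
  · rw [kPoint_eq]
    exact SP.KS_le (SP.sbound_exact h2 h1)
  · obtain ⟨η, hη, h⟩ := hex s h0 h1'
    refine ⟨η, ⟨hη, h⟩, ?_⟩
    rintro η' ⟨hη', h'⟩
    have h3 : evenSum η' / oddSum η' = evenSum η / oddSum η := by
      rw [hkey s η hη h, hkey s η' hη' h']
    exact hanti.injOn (Set.mem_Ioi.2 hη') (Set.mem_Ioi.2 hη) h3
  · obtain ⟨η, hη, h⟩ := hex (1 / 2) (by norm_num) (by norm_num)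
    have hl2 : 0 < Real.log 2 := Real.log_pos (by norm_num)
    have hs0 := hkey _ η hη h
    refine ⟨Φ η / Real.log 2, ?_, ?_, ?_⟩
    · rw [lt_div_iff₀ hl2]
      refine Pool.Agent.Q225.SL.num.2.trans ?_
      have hη1 : (0 : ℝ) < Real.log (9211 / 2654) := Real.log_pos (by norm_num)
      refine k7'.2 (Set.mem_Ioi.2 hη) (Set.mem_Ioi.2 hη1) ?_
      by_contra hcon
      rw [not_lt] at hcon
      have h3 : evenSum η / oddSum η ≤ evenSum (Real.log (9211 / 2654)) /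
          oddSum (Real.log (9211 / 2654)) :=
        hanti.antitoneOn (Set.mem_Ioi.2 hη1) (Set.mem_Ioi.2 hη) hcon
      rw [hs0] at h3
      exact absurd (h3.trans_lt Pool.Agent.Q225.SL.num.1) (lt_irrefl _)
    · rw [div_lt_iff₀ hl2]
      have hη1 : (0 : ℝ) < -Real.log (6515 / 22611) := by
        rw [neg_pos]
        exact Real.log_neg (by norm_num) (by norm_num)
      have hup : Φ (-Real.log (6515 / 22611)) < 396601 / 1000000 * Real.log 2 := by
        have h := Pool.Agent.TH41.SC.Ψ_eq hη1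
        rw [neg_neg, Real.exp_log (by norm_num)] at h
        have h2 : Φ (-Real.log (6515 / 22611)) =
          Pool.Agent.TH41.SC.Ψ (-Real.log (6515 / 22611)) := rfl
        rw [h2, h]
        exact Pool.Agent.TH41.SC.num_Φ
      have hup2 : (1 / 2 : ℝ) * oddSum (-Real.log (6515 / 22611)) ≤
          evenSum (-Real.log (6515 / 22611)) := by
        refine (Pool.Agent.TH41.SC.hyp_iff hη1 (1 / 2)).2 ?_
        rw [neg_neg, Real.exp_log (by norm_num)]
        exact Pool.Agent.TH41.SC.num_hyp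
      refine lt_of_le_of_lt ?_ hup
      refine k7'.2.antitoneOn (Set.mem_Ioi.2 hη1) (Set.mem_Ioi.2 hη) ?_
      by_contra hcon
      rw [not_le] at hcon
      have h3 : evenSum (-Real.log (6515 / 22611)) / oddSum (-Real.log (6515 / 22611)) <
          evenSum η / oddSum η := hanti (Set.mem_Ioi.2 hη) (Set.mem_Ioi.2 hη1) hcon
      rw [hs0, div_lt_iff₀ (hO _ hη1)] at h3
      exact absurd hup2 (not_le.2 h3)
    · intro k hk hk0
      have h3 := (limit hη h (t := fun _ => 1 / 2) tendsto_const_nhds hk hk0).div_const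
        (Real.log 2)
      refine h3.congr fun n => ?_
      rw [Real.logb]
      ring

end Pool.Agent.Results.MP_b5f63d_co.KPointRate
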