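import Pool.Agent.Q197.SK.Rate

/-! Kissing configurations and spherical codes without clustering. -/

set_option autoImplicit false

open MeasureTheory Metric Filter Topology Set
open Pool.Agent.Q197.SK

namespace Pool.Agent.Results.MP_b5f63d_co.NoClustering

theorem result :
    -- the two bounds for the largest expected size
    (∀ (n : ℕ) (κ B : ℝ) (e : EuclideanSpace ℝ (Fin n)), 0 < n → 0 ≤ κ → κ < 1 → 1 / 2 ≤ B →
      ‖e‖ = 1 →
        1 / (8 * cap e κ) ≤ best n κ B ∧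
        best n κ B ≤ 7 * n * (n + 2) * (1 + B) / √(1 - κ ^ 2) ^ (n + 2)) ∧
    -- the exponential rate
    (∀ κ : ℝ, 0 ≤ κ → κ ^ 2 ≤ 1 / 2 → ∀ B : ℕ → ℝ, (∀ n, 1 / 2 ≤ B n) →
      Tendsto (fun n : ℕ => Real.log (B n) / n) atTop (𝓝 0) →
        Tendsto (fun n : ℕ => Real.logb 2 (best n κ (B n)) / n) atTop
          (𝓝 (Real.logb 2 (1 / √(1 - κ ^ 2))))) ∧
    -- kissing configurations
    (∀ B : ℕ → ℝ, (∀ n, 1 / 2 ≤ B n) →
      Tendsto (fun n : ℕ => Real.log (B n) / n) atTop (𝓝 0) →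
        Tendsto (fun n : ℕ => Real.logb 2 (best n (1 / 2) (B n)) / n) atTop
          (𝓝 (Real.logb 2 (2 / √3)))) ∧
    -- kissing configurations beyond this rate are exponentially clustered
    (∀ c : ℝ, Real.logb 2 (2 / √3) < c → ∃ ε : ℝ, 0 < ε ∧ ∀ᶠ n : ℕ in atTop,
      ∀ C : RandomCode n, C.MinAngle (1 / 2) → (2 : ℝ) ^ (c * n) ≤ C.size →
        ¬ C.Unclustered ((2 : ℝ) ^ (ε * n))) := by
  have hsq : 1 / √(1 - (1 / 2 : ℝ) ^ 2) = 2 / √3 := by
    have h1 : (1 - (1 / 2 : ℝ) ^ 2) = 3 / 2 ^ 2 := by norm_num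
    rw [h1, Real.sqrt_div (by norm_num), Real.sqrt_sq (by norm_num), one_div_div]
  refine ⟨?_, fun κ h0 h1 B hB hB2 => rate h0 h1 hB hB2, ?_, ?_⟩
  · intro n κ B e hn h0 h1 hB he
    refine ⟨?_, best_le hn h0 h1 (by linarith)⟩
    have h2 := le_best hn h0 h1 hB he
    have h3 : 0 < cap e κ := by
      refine lt_of_lt_of_le (capo_pos hn he h1) (capo_le_cap e κ)
    rw [div_le_iff₀ (by positivity)]
    linarith
  · intro B hB hB2
    rw [← hsq]
    exact rate (by norm_num) (by norm_num) hB hB2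
  · intro c hc
    set c0 := Real.logb 2 (2 / √3) with hc0
    refine ⟨(c - c0) / 2, by linarith, ?_⟩
    set ε := (c - c0) / 2 with hε
    have hε0 : 0 < ε := by rw [hε]; linarith
    have hr : (1 : ℝ) < 2 ^ ε := Real.one_lt_rpow (by norm_num) hε0
    have hlim := tendsto_pow_const_div_const_pow_of_one_lt 2 hr
    have hsmall : ∀ᶠ n : ℕ in atTop, (n : ℝ) ^ 2 / (2 ^ ε) ^ n < 1 / 56 :=
      hlim.eventually_lt_const (by norm_num)
    filter_upwards [hsmall, eventually_gt_atTop 0] with n hn hn0 C hC hsize hU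
    have hn1 : (1 : ℝ) ≤ n := by exact_mod_cast hn0
    have h1 := upper hn0 C (by norm_num) (by norm_num) hC (by positivity) hU
    set s := √(1 - (1 / 2 : ℝ) ^ 2) with hs
    have hs0 : 0 < s := Real.sqrt_pos.2 (by norm_num)
    have hs2 : s ^ 2 = 3 / 4 := by rw [hs, Real.sq_sqrt (by norm_num)]; norm_num
    have hsn : s ^ n = (2 : ℝ) ^ (-(c0 * n)) := by
      have h2 : (2 : ℝ) ^ c0 = 1 / s := by
        rw [hc0, Real.rpow_logb (by norm_num) (by norm_num) (by positivity), hsq]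
      rw [Real.rpow_neg (by norm_num), Real.rpow_mul (by norm_num), h2, Real.rpow_natCast,
        one_div, inv_pow, inv_inv]
    have h2 : (2 : ℝ) ^ (c * n) * ((2 : ℝ) ^ (-(c0 * n)) * (3 / 4)) ≤
        7 * n * (n + 2) * (1 + 2 ^ (ε * n)) := by
      refine le_trans ?_ h1
      rw [pow_add, hs2, hsn]
      gcongr
    have h3 : (2 : ℝ) ^ (c * n) * (2 : ℝ) ^ (-(c0 * n)) = 2 ^ (ε * n) * 2 ^ (ε * n) := by
      rw [← Real.rpow_add (by norm_num), ← Real.rpow_add (by norm_num)]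
      congr 1
      rw [hε]
      ring
    have h4 : (1 : ℝ) ≤ 2 ^ (ε * n) := Real.one_le_rpow (by norm_num) (by positivity)
    have h5 : ((2 : ℝ) ^ ε) ^ n = 2 ^ (ε * n) := by
      rw [← Real.rpow_natCast, ← Real.rpow_mul (by norm_num)]
    rw [h5, div_lt_iff₀ (by positivity)] at hn
    rw [← mul_assoc, h3] at h2
    have h6 : 7 * (n : ℝ) * (n + 2) * (1 + 2 ^ (ε * n)) ≤ 42 * n ^ 2 * 2 ^ (ε * n) := by
      have e1 : (n : ℝ) + 2 ≤ 3 * n := by linarith
      have e2 : (1 : ℝ) + 2 ^ (ε * n) ≤ 2 * 2 ^ (ε * n) := by linarith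
      calc 7 * (n : ℝ) * (n + 2) * (1 + 2 ^ (ε * n)) ≤ 7 * n * (3 * n) * (2 * 2 ^ (ε * n)) := by
            gcongr
        _ = _ := by ring
    have h7 : (2 : ℝ) ^ (ε * n) * (2 ^ (ε * n) * (3 / 4)) ≤ 2 ^ (ε * n) * (42 * n ^ 2) := by
      linarith
    have h8 := le_of_mul_le_mul_left h7 (by positivity)
    linarith

end Pool.Agent.Results.MP_b5f63d_co.NoClustering
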